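import Mathlib
import Pool.Agent.N420.MA.Full
import Pool.Agent.W66.LU

set_option autoImplicit false

/-!
# The Lenstra-Pomerance-Wagstaff law for random digit sequences in every base, with a square root
error term, and for every set of primes

For an integer `b ≥ 2`, a sequence `d` of digits in base `b` and a prime `p` let `W d p` be the
`p`-rough part (the product, with multiplicity, of the prime factors larger than `p`) of the integer
`d 0 + d 1 b + ... + d (p - 1) b ^ (p - 1)`.  If all the digits are `1` this is the repunit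
`1 + b + ... + b ^ (p - 1)` itself, for every prime `p` that does not divide `b - 1`; in base two it
is the Mersenne number `2 ^ p - 1`.  For a set `S` let `M S d n` be the number of the primes `p ≤ n`
in `S` with `W d p` prime, and `V S n` the sum of `log p / p` over the primes `p ≤ n` in `S`.
Let the digits be independent and uniformly distributed, and `c = e ^ γ / log b`.  We prove that for
every set `S` and almost every digit sequence whose lowest digit is prime to `b`:
if `V S n → ∞` then `M S d n = c V S n + O((V L) ^ (1/2) (log (V L)) ^ 2)` with `V = V S n` and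
`L = log log n`, and `W d p` is prime for infinitely many primes `p` in `S` if and only if
`V S n → ∞`.  For the set of all primes
`M d n = c log n + O((log n) ^ (1/2) (log log n) ^ (5/2))`.
-/

namespace Pool.Agent.Results.MP_9b2bac_nt.DigitSequences

open Filter Topology MeasureTheory Asymptotics

/-- The product, with multiplicity, of the prime factors of `m` that are larger than `p`. -/
def roughPart (p m : ℕ) : ℕ := (m.primeFactorsList.filter (fun r => p < r)).prod

/-- The `p`-rough part of the integer with the `p` digits `d 0` (lowest), ..., `d (p - 1)` in base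
`b`. -/
def W {b : ℕ} (d : ℕ → Fin b) (p : ℕ) : ℕ :=
  roughPart p (∑ i ∈ Finset.range p, (d i : ℕ) * b ^ i)

open Classical in
/-- The number of primes `p ≤ n` in the set `S` for which `W d p` is prime. -/
noncomputable def M (S : Set ℕ) {b : ℕ} (d : ℕ → Fin b) (n : ℕ) : ℕ :=
  ((Finset.range (n + 1)).filter (fun p => p.Prime ∧ p ∈ S ∧ (W d p).Prime)).card

open Classical in
/-- The sum of `log p / p` over the primes `p ≤ n` in the set `S`. -/
noncomputable def V (S : Set ℕ) (n : ℕ) : ℝ :=
  ∑ p ∈ (Finset.range (n + 1)).filter (fun p => p.Prime ∧ p ∈ S), Real.log p / p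

/-- The law of a sequence of independent digits that are uniformly distributed in `0, ..., b - 1`. -/
noncomputable def digits (b : ℕ) : Measure (ℕ → Fin b) :=
  Measure.infinitePi (fun _ : ℕ => ProbabilityTheory.uniformOn (Set.univ : Set (Fin b)))

lemma V_eq (S : Set ℕ) (n : ℕ) : V S n = Pool.Agent.TH888.R.VS S n := by
  classical
  unfold V Pool.Agent.TH888.R.VS
  rw [Finset.sum_filter]
  refine Finset.sum_congr rfl fun p _ => ?_
  by_cases h : p.Prime ∧ p ∈ S
  · rw [if_pos h, if_pos ⟨h.2, h.1⟩]
    rfl
  · rw [if_neg h, if_neg fun h1 => h ⟨h1.2, h1.1⟩]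

lemma M_eq (S : Set ℕ) {b : ℕ} (d : ℕ → Fin b) (n : ℕ) :
    M S d n = Pool.Agent.TH888.R.cS S (fun p => Pool.Agent.W66L.dsum b p d) n := by
  classical
  rfl

lemma W_one {b : ℕ} (hb : 2 ≤ b) {d : ℕ → Fin b} (hd : ∀ i, (d i : ℕ) = 1) {p : ℕ} (hp : p.Prime)
    (hpb : ¬ p ∣ b - 1) : W d p = ∑ i ∈ Finset.range p, b ^ i := by
  have h := Pool.Agent.W66L.rough_repunit hb hp hpb
  have e : ∑ i ∈ Finset.range p, (d i : ℕ) * b ^ i = ∑ i ∈ Finset.range p, b ^ i :=
    Finset.sum_congr rfl fun i _ => by rw [hd i, one_mul]
  unfold W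
  rw [e]
  exact h

/-- If all the digits are `1` the numbers are the Mersenne numbers in base two and the repunits in
base `b`; in every base, for almost every sequence of digits with lowest digit prime to the base,
the law holds with a square root error term; for every set of primes the number of prime values is
finite or infinite according to the weight of the set, and in the second case it obeys the
corresponding law. -/
theorem result :
    (∀ p : ℕ, p.Prime → W (fun _ : ℕ => (1 : Fin 2)) p = 2 ^ p - 1) ∧
    (∀ b : ℕ, 2 ≤ b → ∀ d : ℕ → Fin b, (∀ i, (d i : ℕ) = 1) → ∀ p : ℕ, p.Prime → ¬ p ∣ b - 1 →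
      W d p = ∑ i ∈ Finset.range p, b ^ i) ∧
    (∀ b : ℕ, 2 ≤ b →
      (∀ᵐ d : ℕ → Fin b ∂(digits b), (d 0 : ℕ).Coprime b →
        (fun n : ℕ => (M Set.univ d n : ℝ) -
          Real.exp Real.eulerMascheroniConstant / Real.log b * Real.log n) =O[atTop]
        (fun n : ℕ => Real.sqrt (Real.log n) * (Real.log (Real.log n)) ^ ((5 : ℝ) / 2))) ∧
      (∀ S : Set ℕ, ∀ᵐ d : ℕ → Fin b ∂(digits b), (d 0 : ℕ).Coprime b →
        (Tendsto (V S) atTop atTop →
          (fun n : ℕ => (M S d n : ℝ) -
            Real.exp Real.eulerMascheroniConstant / Real.log b * V S n) =O[atTop]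
          (fun n : ℕ => Real.sqrt (V S n * Real.log (Real.log n)) *
            (Real.log (V S n * Real.log (Real.log n))) ^ 2)) ∧
        ({p : ℕ | p.Prime ∧ p ∈ S ∧ (W d p).Prime}.Infinite ↔ Tendsto (V S) atTop atTop))) := by
  have hV : ∀ S, V S = Pool.Agent.TH888.R.VS S := fun S => funext fun n => V_eq S n
  refine ⟨fun p hp => ?_, fun b hb d hd p hp hpb => W_one hb hd hp hpb, fun b hb => ?_⟩
  · have h := W_one le_rfl (d := fun _ : ℕ => (1 : Fin 2)) (fun _ => rfl) hp (by
      intro h
      exact hp.one_lt.ne' (Nat.dvd_one.1 h))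
    rw [h, Nat.geomSum_eq le_rfl]
    norm_num
  · haveI : NeZero b := ⟨by omega⟩
    have hd1 : ∀ d : ℕ → Fin b, Pool.Agent.W66L.dsum b 1 d = (d 0 : ℕ) := fun d => by
      unfold Pool.Agent.W66L.dsum
      simp
    have hm : digits b = Pool.Agent.W66L.digitMeasure b := rfl
    refine ⟨?_, fun S => ?_⟩
    · rw [hm]
      filter_upwards [Pool.Agent.N420.MA.full_univ hb (Pool.Agent.W66L.full_digits b)] with d h hc
      simp only [M_eq]
      exact h (by rw [hd1 d]; exact hc)
    · rw [hm, hV]
      filter_upwards [Pool.Agent.N420.MA.full_law hb (Pool.Agent.W66L.full_digits b) S] with d h hc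
      simp only [M_eq]
      exact h (by rw [hd1 d]; exact hc)

end Pool.Agent.Results.MP_9b2bac_nt.DigitSequences
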