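import Mathlib
import Pool.Agent.N54.LP.Fam
import Pool.Agent.H447R2.ML.Spec

set_option autoImplicit false

/-!
# The Lenstra-Pomerance-Wagstaff law for matrices and for Lehmer-Pierce numbers

For a real sequence `s` let `W s p` be the `p`-rough part (the product, with multiplicity, of the
prime factors larger than `p`) of `⌊s p⌋`.  For `s p = |det (A ^ p - 1)|` with the `1 × 1` matrix
`A = (2)`, and for the Lehmer-Pierce numbers `|Res (f, X ^ p - 1)|` of `f = X - 2`, the number
`W s p` is the Mersenne number `2 ^ p - 1`.  A sequence obeys the law with constant `κ` for a set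
`S` if the number of primes `p ≤ n` with `W s p` prime is
`κ log n + O((log n) ^ (1/2) (log log n) ^ (5/2))`, if the same holds for the primes in `S` with
`V S n` (the sum of `log p / p` over the primes `p ≤ n` in `S`) in the place of `log n` and the error
term `O((V L) ^ (1/2) (log (V L)) ^ 2)`, `L = log log n`, in case `V S` is unbounded, and if there are
infinitely many `p` in `S` with `W s p` prime if and only if `V S` is unbounded.

We prove the law, with constant `e ^ γ / m`, where `m` is the logarithmic Mahler measure of the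
characteristic polynomial (of the polynomial), for the multiples `r A` of every complex matrix `A`
for almost every `r > 0`, for almost every real matrix, for almost every real polynomial of degree
at most `d` and for almost every monic real polynomial of degree `d`, and along `C ^ 2` curves of
exponential sums with a dominating term.
-/

namespace Pool.Agent.Results.MP_9b2bac_nt.LehmerPierce

open Filter Topology MeasureTheory Asymptotics Polynomial

/-- The product, with multiplicity, of the prime factors of `m` that are larger than `p`. -/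
def roughPart (p m : ℕ) : ℕ := (m.primeFactorsList.filter (fun r => p < r)).prod

/-- The `p`-rough part of the integer part of the term `s p` of a real sequence. -/
noncomputable def W (s : ℕ → ℝ) (p : ℕ) : ℕ := roughPart p ⌊s p⌋₊

open Classical in
/-- The number of primes `p ≤ n` in the set `S` for which `W s p` is prime. -/
noncomputable def M (s : ℕ → ℝ) (S : Set ℕ) (n : ℕ) : ℕ :=
  ((Finset.range (n + 1)).filter (fun p => p.Prime ∧ p ∈ S ∧ (W s p).Prime)).card

open Classical in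
/-- The sum of `log p / p` over the primes `p ≤ n` in the set `S`. -/
noncomputable def V (S : Set ℕ) (n : ℕ) : ℝ :=
  ∑ p ∈ (Finset.range (n + 1)).filter (fun p => p.Prime ∧ p ∈ S), Real.log p / p

/-- The law with constant `κ`, with error term, for all primes and for the primes in `S`. -/
structure Law (s : ℕ → ℝ) (κ : ℝ) (S : Set ℕ) : Prop where
  /-- the number of all primes `p ≤ n` with `W s p` prime -/
  all : (fun n : ℕ => (M s Set.univ n : ℝ) - κ * Real.log n) =O[atTop]
    (fun n : ℕ => Real.sqrt (Real.log n) * (Real.log (Real.log n)) ^ ((5 : ℝ) / 2))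
  /-- the number of primes `p ≤ n` in `S` with `W s p` prime -/
  sets : Tendsto (V S) atTop atTop → (fun n : ℕ => (M s S n : ℝ) - κ * V S n) =O[atTop]
    (fun n : ℕ => Real.sqrt (V S n * Real.log (Real.log n)) *
      (Real.log (V S n * Real.log (Real.log n))) ^ 2)
  /-- there are infinitely many in `S` if and only if the weight of `S` is infinite -/
  dichotomy : {p : ℕ | p.Prime ∧ p ∈ S ∧ (W s p).Prime}.Infinite ↔ Tendsto (V S) atTop atTop

/-- The Lehmer-Pierce number `|Res (f, X ^ p - 1)|` of a real polynomial `f`. -/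
noncomputable def lehmerPierce (f : ℝ[X]) (p : ℕ) : ℝ := |resultant f (X ^ p - 1)|

/-- The logarithmic Mahler measure of a real polynomial. -/
noncomputable def mahler (f : ℝ[X]) : ℝ := (f.map Complex.ofRealHom).logMahlerMeasure

/-- The polynomial `c 0 + c 1 * X + ... + c d * X ^ d`. -/
noncomputable def poly {d : ℕ} (c : Fin (d + 1) → ℝ) : ℝ[X] := ∑ i, C (c i) * X ^ (i : ℕ)

/-- The monic polynomial `c 0 + c 1 * X + ... + c (d - 1) * X ^ (d - 1) + X ^ d`. -/
noncomputable def monicPoly {d : ℕ} (c : Fin d → ℝ) : ℝ[X] := X ^ d + ∑ i, C (c i) * X ^ (i : ℕ)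

lemma V_eq (S : Set ℕ) : V S = Pool.Agent.TH888.R.VS S := by
  classical
  funext n
  unfold V Pool.Agent.TH888.R.VS
  rw [Finset.sum_filter]
  refine Finset.sum_congr rfl fun p _ => ?_
  by_cases h : p.Prime ∧ p ∈ S
  · rw [if_pos h, if_pos ⟨h.2, h.1⟩]
    rfl
  · rw [if_neg h, if_neg fun h1 => h ⟨h1.2, h1.1⟩]

lemma M_eq (s : ℕ → ℝ) (S : Set ℕ) (n : ℕ) :
    M s S n = Pool.Agent.TH888.R.cS S (fun p => ⌊s p⌋₊) n := by
  classical
  unfold M Pool.Agent.TH888.R.cS
  rfl

/-- If `s p = 2 ^ p - 1` then `W s p` is the Mersenne number. -/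
lemma W_mersenne {s : ℕ → ℝ} {p : ℕ} (hp : p.Prime) (hs : s p = 2 ^ p - 1) :
    W s p = 2 ^ p - 1 := by
  have hpd : ¬ (p : ℤ) ∣ (2 : ℤ) - 1 := by
    intro h
    have h1 : (p : ℤ) ∣ 1 := by simpa using h
    have h2 : p ∣ 1 := by exact_mod_cast h1
    exact hp.one_lt.ne' (Nat.dvd_one.1 h2)
  have h := Pool.Agent.H447R2.ML.rough_quot (a := 2) (b := 1) (by norm_num) (by norm_num)
    (by norm_num) hp hpd (x := s p) (by rw [hs]; norm_num)
  have hgeom : (∑ i ∈ Finset.range p, (2 : ℤ) ^ i * 1 ^ (p - 1 - i)) * (2 - 1) =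
      (2 : ℤ) ^ p - 1 ^ p := (Commute.all (2 : ℤ) 1).geom_sum₂_mul p
  have h4 : W s p = Pool.Agent.H305R2.roughPart p ⌊s p⌋₊ := rfl
  rw [← h4] at h
  have h5 : W s p + 1 = 2 ^ p := by
    have : ((W s p + 1 : ℕ) : ℤ) = ((2 ^ p : ℕ) : ℤ) := by
      push_cast
      norm_num at h hgeom ⊢
      linarith
    exact_mod_cast this
  omega

/-- the law from the library statement -/
lemma law_of {s : ℕ → ℝ} {κ : ℝ} {S : Set ℕ}
    (h1 : Pool.Agent.TH888.R.Pt (fun p => ⌊s p⌋₊) κ Set.univ)
    (h2 : Pool.Agent.TH888.R.Pt (fun p => ⌊s p⌋₊) κ S) : Law s κ S := by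
  refine ⟨?_, fun hS => ?_, ?_⟩
  · obtain ⟨B, hB, h⟩ := h1.law Pool.Agent.TH888.R.VS_univ_tendsto
    simp only [M_eq]
    exact Pool.Agent.TH888.R.bigO_all hB h
  · rw [V_eq] at hS ⊢
    obtain ⟨B, hB, h⟩ := h2.law hS
    simp only [M_eq]
    exact Pool.Agent.TH888.R.bigO_set hB hS h
  · rw [V_eq]
    constructor
    · intro hi
      by_contra hn
      exact hi (h2.fin hn)
    · exact h2.inf

lemma lp_mersenne (p : ℕ) : lehmerPierce (X - C 2) p = 2 ^ p - 1 := by
  unfold lehmerPierce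
  have h1 : (X - C (2 : ℝ)).natDegree = 1 := natDegree_X_sub_C 2
  rw [h1, resultant_X_sub_C_left _ _ _ le_rfl]
  have h2 : (1 : ℝ) ≤ 2 ^ p := one_le_pow₀ (by norm_num)
  simp only [eval_sub, eval_pow, eval_X, eval_one]
  rw [abs_of_nonneg (by linarith)]

lemma mahler_two : mahler (X - C 2) = Real.log 2 := by
  unfold mahler
  have h1 : (X - C (2 : ℝ)).map Complex.ofRealHom = X - C (2 : ℂ) := by simp
  rw [h1, logMahlerMeasure_X_sub_C, Real.posLog_eq_log]
  · simp
  · simp

lemma charpoly_two : ((2 : ℝ) • (1 : Matrix (Fin 1) (Fin 1) ℝ)).charpoly = X - C 2 := by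
  rw [Matrix.charpoly, Matrix.det_fin_one]
  simp [Matrix.charmatrix]

lemma det_two (p : ℕ) : |(((2 : ℝ) • (1 : Matrix (Fin 1) (Fin 1) ℝ)) ^ p - 1).det| = 2 ^ p - 1 := by
  rw [_root_.smul_pow, one_pow, Matrix.det_fin_one]
  have h2 : (1 : ℝ) ≤ 2 ^ p := one_le_pow₀ (by norm_num)
  simp only [Matrix.sub_apply, Matrix.smul_apply, Matrix.one_apply_eq, smul_eq_mul, mul_one]
  rw [abs_of_nonneg (by linarith)]

/-- **The law of Lenstra, Pomerance and Wagstaff for matrices and for Lehmer-Pierce numbers.** -/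
theorem result :
    -- the Mersenne numbers are the case of the matrix `(2)` and of the polynomial `X - 2`
    (∀ p : ℕ, p.Prime →
      W (fun q => |(((2 : ℝ) • (1 : Matrix (Fin 1) (Fin 1) ℝ)) ^ q - 1).det|) p = 2 ^ p - 1) ∧
    (∀ p : ℕ, p.Prime → W (lehmerPierce (X - C 2)) p = 2 ^ p - 1) ∧
    mahler ((2 : ℝ) • (1 : Matrix (Fin 1) (Fin 1) ℝ)).charpoly = Real.log 2 ∧
    mahler (X - C 2) = Real.log 2 ∧
    -- almost every real matrix
    (∀ (d : ℕ) (S : Set ℕ), ∀ᵐ a : Fin d → Fin d → ℝ, 0 < mahler (Matrix.of a).charpoly →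
      Law (fun p => |((Matrix.of a) ^ p - 1).det|)
        (Real.exp Real.eulerMascheroniConstant / mahler (Matrix.of a).charpoly) S) ∧
    -- almost every multiple of every complex matrix
    (∀ (d : ℕ) (A : Matrix (Fin d) (Fin d) ℂ) (S : Set ℕ), ∀ᵐ r : ℝ, 0 < r →
      0 < ((r : ℂ) • A).charpoly.logMahlerMeasure →
      Law (fun p => ‖(((r : ℂ) • A) ^ p - 1).det‖)
        (Real.exp Real.eulerMascheroniConstant / ((r : ℂ) • A).charpoly.logMahlerMeasure) S) ∧
    -- almost every real polynomial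
    (∀ (d : ℕ) (S : Set ℕ), ∀ᵐ c : Fin (d + 1) → ℝ, 0 < mahler (poly c) →
      Law (lehmerPierce (poly c))
        (Real.exp Real.eulerMascheroniConstant / mahler (poly c)) S) ∧
    -- almost every monic real polynomial
    (∀ (d : ℕ) (S : Set ℕ), ∀ᵐ c : Fin d → ℝ, 0 < mahler (monicPoly c) →
      Law (lehmerPierce (monicPoly c))
        (Real.exp Real.eulerMascheroniConstant / mahler (monicPoly c)) S) ∧
    -- curves of exponential sums with a dominating term
    (∀ (ι : Type) (J : Finset ι) (U : Set ℝ), IsOpen U → ∀ (A₀ μ₀ : ℝ → ℂ) (A μ : ι → ℝ → ℂ),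
      ContDiffOn ℝ 2 A₀ U → ContDiffOn ℝ 2 μ₀ U → (∀ j ∈ J, ContDiffOn ℝ 2 (A j) U) →
      (∀ j ∈ J, ContDiffOn ℝ 2 (μ j) U) → (∀ x ∈ U, A₀ x ≠ 0) → (∀ x ∈ U, μ₀ x ≠ 0) →
      (∀ x ∈ U, ∀ j ∈ J, ‖μ j x‖ < ‖μ₀ x‖) → ∀ S : Set ℕ,
      ∀ᵐ x : ℝ, x ∈ U → 1 < ‖μ₀ x‖ → deriv (fun x => Real.log ‖μ₀ x‖) x ≠ 0 →
        Law (fun p => ‖A₀ x * μ₀ x ^ p + ∑ j ∈ J, A j x * μ j x ^ p‖)
          (Real.exp Real.eulerMascheroniConstant / Real.log ‖μ₀ x‖) S) := by
  refine ⟨fun p hp => W_mersenne hp (det_two p), fun p hp => W_mersenne hp (lp_mersenne p),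
    ?_, mahler_two, fun d S => ?_, fun d A S => ?_, fun d S => ?_, fun d S => ?_,
    fun ι J U hU A₀ μ₀ A μ hA0 hμ0 hA hμ hne hpos hdom S => ?_⟩
  · rw [charpoly_two]
    exact mahler_two
  · filter_upwards [Pool.Agent.N54.LP.pt_matrix d Set.univ, Pool.Agent.N54.LP.pt_matrix d S]
      with a h1 h2 hm
    exact law_of (h1 hm) (h2 hm)
  · filter_upwards [Pool.Agent.N54.LP.pt_smul A Set.univ, Pool.Agent.N54.LP.pt_smul A S]
      with r h1 h2 hr hm
    exact law_of (h1 hr hm) (h2 hr hm)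
  · filter_upwards [Pool.Agent.N54.LP.pt_poly d Set.univ, Pool.Agent.N54.LP.pt_poly d S]
      with c h1 h2 hm
    exact law_of (h1 hm) (h2 hm)
  · filter_upwards [Pool.Agent.N54.LP.pt_monic d Set.univ, Pool.Agent.N54.LP.pt_monic d S]
      with c h1 h2 hm
    exact law_of (h1 hm) (h2 hm)
  · filter_upwards [Pool.Agent.N54.LP.pt_curve J hU hA0 hμ0 hA hμ hne hdom hpos Set.univ,
      Pool.Agent.N54.LP.pt_curve J hU hA0 hμ0 hA hμ hne hdom hpos S] with x h1 h2 hx hm hd
    exact law_of (h1 hx hm hd) (h2 hx hm hd)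

end Pool.Agent.Results.MP_9b2bac_nt.LehmerPierce
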