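import Mathlib
import Pool.Agent.N176.GP.Fin
import Pool.Agent.N176.OW.All2

set_option autoImplicit false

/-!
# The exponents for almost every amplitude, with the fluctuations of a Poisson process

For real `β > 0` and a prime `p` let `W β p` be the `p`-rough part (the product, with multiplicity,
of the prime factors larger than `p`) of the largest integer below `β * 2 ^ p`.  For `β = 1` this is
the Mersenne number `2 ^ p - 1` itself.  The exponents of `β` are the primes `p` with `W β p` prime.

According to the Poisson model behind the conjecture the exponents form, on the scale `log p`, a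
Poisson process of intensity `κ = e ^ γ / log 2`.  For such a process the number of points in
`(log n, log n']` differs from its mean `κ log (n' / n)` by
`O (sqrt (log (n' / n) log log n') + log log n')`, for all windows at once, and for the windows
starting at the origin by `O (sqrt (log n log log log n))` (law of the iterated logarithm); both are
optimal up to the constants.  We prove precisely these bounds for the exponents of almost every
`β > 0`: for all windows `(n, n']` at once, of whatever length, and for the whole counting function.
In particular all windows with `n' ≥ n (log n) ^ C` contain the expected number of exponents up to a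
factor arbitrarily near to 1, for large `C`.

The same holds for the exponents in an arbitrary set `S` of primes of infinite weight
`∑ log p / p`, with the weight in the place of the logarithm and absolute constants.
-/

namespace Pool.Agent.Results.MP_9b2bac_nt.PoissonWindows

open Filter Topology MeasureTheory

/-- The product, with multiplicity, of the prime factors of `m` that are larger than `p`. -/
def roughPart (p m : ℕ) : ℕ := (m.primeFactorsList.filter (fun r => p < r)).prod

/-- The `p`-rough part of the largest integer below `β * 2 ^ p`. -/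
noncomputable def W (β : ℝ) (p : ℕ) : ℕ := roughPart p (⌈β * 2 ^ p⌉₊ - 1)

open Classical in
/-- The number of primes `p ≤ n` in the set `S` for which `W β p` is prime. -/
noncomputable def M (S : Set ℕ) (β : ℝ) (n : ℕ) : ℕ :=
  ((Finset.range (n + 1)).filter (fun p => p.Prime ∧ p ∈ S ∧ (W β p).Prime)).card

open Classical in
/-- The sum of `log p / p` over the primes `p ≤ n` in the set `S`. -/
noncomputable def V (S : Set ℕ) (n : ℕ) : ℝ :=
  ∑ p ∈ (Finset.range (n + 1)).filter (fun p => p.Prime ∧ p ∈ S), Real.log p / p

/-- The constant of the law, `e ^ γ / log 2`. -/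
noncomputable def κ : ℝ := Real.exp Real.eulerMascheroniConstant / Real.log 2

/-- The counting function at `β = 1` is that of the Mersenne primes; the window law and the law of
the iterated logarithm for all exponents; the same for the exponents in an arbitrary set of primes
of infinite weight. -/
theorem result :
    (∀ n : ℕ, M Set.univ 1 n =
      ((Finset.range (n + 1)).filter (fun p => p.Prime ∧ (2 ^ p - 1).Prime)).card) ∧
    (∃ C : ℝ, ∀ᵐ β : ℝ, 0 < β →
      (∀ᶠ n : ℕ in atTop, ∀ n' ≥ n,
        |((M Set.univ β n' : ℝ) - M Set.univ β n) - κ * Real.log ((n' : ℝ) / n)| ≤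
          C * (√(Real.log ((n' : ℝ) / n) * Real.log (Real.log n')) + Real.log (Real.log n'))) ∧
      (∀ᶠ n : ℕ in atTop, |(M Set.univ β n : ℝ) - κ * Real.log n| ≤
        C * √(Real.log n * Real.log (Real.log (Real.log n))))) ∧
    (∃ C : ℝ, ∀ S : Set ℕ, Tendsto (fun n => V S n) atTop atTop → ∀ᵐ β : ℝ, 0 < β →
      (∀ᶠ n : ℕ in atTop, ∀ n' ≥ n,
        |((M S β n' : ℝ) - M S β n) - κ * (V S n' - V S n)| ≤
          C * (√((V S n' - V S n) * Real.log (V S n')) + Real.log (V S n'))) ∧
      (∀ᶠ n : ℕ in atTop, |(M S β n : ℝ) - κ * V S n| ≤
        C * √(V S n * Real.log (Real.log (V S n))))) := by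
  classical
  have eM : ∀ S β n, Pool.Agent.N176.GP.MB 2 S β n = M S β n := by
    intro S β n
    unfold Pool.Agent.N176.GP.MB M W Pool.Agent.N176.GP.NB
    push_cast
    rfl
  have eV : ∀ S n, Pool.Agent.N176.OW.VS S n = V S n := fun S n => rfl
  have ek : Pool.Agent.N176.OW.kap 2 = κ := by
    unfold Pool.Agent.N176.OW.kap κ
    norm_num
  refine ⟨fun n => ?_, ?_, ?_⟩
  · unfold M
    congr 1
    ext p
    simp only [Finset.mem_filter, Set.mem_univ, true_and]
    refine and_congr_right fun _ => and_congr_right fun hp => ?_
    have h : W 1 p = 2 ^ p - 1 := Pool.Agent.N176.GP.special hp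
    rw [h]
  · obtain ⟨C1, hC1, h1⟩ := Pool.Agent.N176.OW.win_univ Pool.Agent.N176.OW.All.win (b := 2) le_rfl
    obtain ⟨C2, hC2, h2⟩ := Pool.Agent.N176.OW.lil_univ Pool.Agent.N176.OW.All.lil (b := 2) le_rfl
    simp only [eM, ek] at h1 h2
    refine ⟨max C1 C2, ?_⟩
    filter_upwards [h1, h2] with β h1 h2 hβ
    constructor
    · filter_upwards [h1 hβ, eventually_ge_atTop 16] with n hn hn16 n' hnn'
      refine (hn n' hnn').trans (mul_le_mul_of_nonneg_right (le_max_left _ _) ?_)
      have h3 : (1 : ℝ) ≤ Real.log n' := by
        rw [Real.le_log_iff_exp_le (by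
          have : 0 < n' := by omega
          exact_mod_cast this)]
        have h4 := Real.exp_one_lt_d9
        have h5 : (16 : ℝ) ≤ n' := by exact_mod_cast hn16.trans hnn'
        linarith
      have := Real.log_nonneg h3
      positivity
    · filter_upwards [h2 hβ] with n hn
      exact hn.trans (mul_le_mul_of_nonneg_right (le_max_right _ _) (Real.sqrt_nonneg _))
  · obtain ⟨C1, hC1, h1⟩ := Pool.Agent.N176.OW.All.win 2 le_rfl
    obtain ⟨C2, hC2, h2⟩ := Pool.Agent.N176.OW.All.lil 2 le_rfl
    simp only [eM, ek, eV] at h1 h2
    refine ⟨max C1 C2, fun S hS => ?_⟩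
    filter_upwards [h1 S hS, h2 S hS] with β h1 h2 hβ
    constructor
    · filter_upwards [h1 hβ, hS.eventually_ge_atTop 1] with n hn hn1 n' hnn'
      refine (hn n' hnn').trans (mul_le_mul_of_nonneg_right (le_max_left _ _) ?_)
      have h3 : V S n ≤ V S n' := Pool.Agent.N176.OW.VS_mono S hnn'
      have := Real.log_nonneg (hn1.trans h3)
      positivity
    · filter_upwards [h2 hβ] with n hn
      exact hn.trans (mul_le_mul_of_nonneg_right (le_max_right _ _) (Real.sqrt_nonneg _))

end Pool.Agent.Results.MP_9b2bac_nt.PoissonWindows
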