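import Pool.Agent.N449.SG.Main

/-!
# Factors of Mersenne numbers, repunits and Wagstaff numbers with few digits

Let `b` be an integer which is not a perfect power (for instance `b = 2`) and `p` a prime. A
factorization of `b ^ p - 1` or `b ^ p + 1` into two integers of absolute value larger than `1`
cannot have two factors with few signed digits in base `b`, or few short blocks of digits. For
`b = 2` this concerns all factorizations of the Mersenne number `2 ^ p - 1`.
-/

set_option autoImplicit false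

namespace Pool.Agent.Results.MP_9b2bac_nt.SparseFactors

open Finset

/-- `b ≥ 2` is not a perfect power, `p` is prime, `d e = b ^ p ± 1`, `|d|, |e| > 1`,
`d = ∑_{i ∈ S} u_i b ^ i`, `e = ∑_{j ∈ T} v_j b ^ j` with arbitrary integers `u_i`, `v_j`;
`s = |S|`, `t = |T|`. Then `b ^ p ≤ (b + ∑ |u_i| ∑ |v_j|) ^ (4 t (8 t) ^ (s - 1))`. -/
theorem result (b : ℕ) (hb : 2 ≤ b) (hpow : ∀ k r : ℕ, 2 ≤ r → k ^ r ≠ b) (p : ℕ)
    (hp : p.Prime) (d e : ℤ) (h : d * e = (b : ℤ) ^ p - 1 ∨ d * e = (b : ℤ) ^ p + 1)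
    (hd : 1 < |d|) (he : 1 < |e|) (S T : Finset ℕ) (u v : ℕ → ℤ)
    (hS : d = ∑ i ∈ S, u i * (b : ℤ) ^ i) (hT : e = ∑ j ∈ T, v j * (b : ℤ) ^ j) :
    (b : ℤ) ^ p ≤ (b + (∑ i ∈ S, |u i|) * (∑ j ∈ T, |v j|))
      ^ (4 * T.card * (8 * T.card) ^ (S.card - 1)) := by
  rcases h with h | h
  · exact Pool.Agent.N449.SG.final b hb hpow p hp (-1) (Or.inr rfl) d e (by rw [h]; ring) hd he
      S T u v hS hT
  · exact Pool.Agent.N449.SG.final b hb hpow p hp 1 (Or.inl rfl) d e h hd he S T u v hS hT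

end Pool.Agent.Results.MP_9b2bac_nt.SparseFactors
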